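import Pool.Agent.W438.Hyp.Dir

set_option autoImplicit false

open MeasureTheory

namespace Pool.Agent.W438.Hyp

open Pool.Agent.W575.Hyp6

/-- a subgroup of minimal index: covolume `8π³/15` -/
theorem exists_fd_min (Γ : Subgroup PosLor) (k : ℕ) (hk : 1 ≤ k) (hidx : Γ.index = 414720 * k)
    (hfree : ∀ γ ∈ Γ, ∀ x : H6, γ • x = x → γ = 1) :
    ∃ D : Set H6, IsFundamentalDomain Γ D hypVol ∧
      hypVol D = ENNReal.ofReal (k * (8 * Real.pi ^ 3 / 15)) := by
  obtain ⟨D, hD, hv⟩ := exists_fd Γ (by rw [hidx]; positivity) hfree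
  refine ⟨D, hD, ?_⟩
  rw [hv, hidx]
  congr 1
  push_cast
  ring

end Pool.Agent.W438.Hyp
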