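import Mathlib

set_option autoImplicit false

open MeasureTheory Set Filter
open scoped Pointwise ENNReal

namespace Pool.Agent.W438.Hyp

/-- the group as a product of the coset space and the subgroup -/
noncomputable def cosetEquiv {Γ : Type*} [Group Γ] (K : Subgroup Γ) : (Γ ⧸ K) × K ≃ Γ where
  toFun a := a.1.out * a.2
  invFun g := (QuotientGroup.mk g, ⟨(QuotientGroup.mk g : Γ ⧸ K).out⁻¹ * g,
    QuotientGroup.eq.1 (QuotientGroup.out_eq' _)⟩)
  left_inv := by
    rintro ⟨q, k⟩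
    have h : (QuotientGroup.mk (q.out * (k : Γ)) : Γ ⧸ K) = q := by
      rw [QuotientGroup.mk_mul_of_mem _ k.2, QuotientGroup.out_eq']
    apply Prod.ext
    · exact h
    · apply Subtype.ext
      change (QuotientGroup.mk (q.out * (k : Γ)) : Γ ⧸ K).out⁻¹ * (q.out * (k : Γ)) = k
      rw [h, inv_mul_cancel_left]
  right_inv := by
    intro g
    change (QuotientGroup.mk g : Γ ⧸ K).out * ((QuotientGroup.mk g : Γ ⧸ K).out⁻¹ * g) = g
    rw [mul_inv_cancel_left]

section
variable {Γ α : Type*} [Group Γ] [Countable Γ] [MulAction Γ α] [MeasurableSpace α] {μ : Measure α}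
  [MeasurableConstSMul Γ α] [SMulInvariantMeasure Γ α μ]

/-- **the index formula** for measures of fundamental domains -/
theorem index_formula (K : Subgroup Γ) [Finite (Γ ⧸ K)] {D D' : Set α}
    (hD : IsFundamentalDomain Γ D μ) (hD' : IsFundamentalDomain K D' μ) :
    μ D' = (K.index : ℝ≥0∞) * μ D := by
  classical
  have : Fintype (Γ ⧸ K) := Fintype.ofFinite _
  rw [hD.measure_eq_tsum' D']
  have h1 : ∀ g : Γ, μ (D' ∩ g • D) = μ (g⁻¹ • D' ∩ D) := by
    intro g
    rw [← measure_smul μ g⁻¹ (D' ∩ g • D), smul_set_inter, inv_smul_smul]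
  simp_rw [h1]
  have h0 := (Equiv.inv Γ).tsum_eq (fun g : Γ => μ (g • D' ∩ D))
  simp only [Equiv.inv_apply] at h0
  rw [h0]
  rw [← (cosetEquiv K).tsum_eq
    (fun g : Γ => μ (g • D' ∩ D))]
  rw [ENNReal.tsum_prod']
  have h2 : ∀ q : Γ ⧸ K, ∑' k : K, μ ((cosetEquiv K) (q, k) • D' ∩ D)
      = μ D := by
    intro q
    obtain ⟨r, hr⟩ : ∃ r : Γ, ∀ k : K, (cosetEquiv K) (q, k) = r * k := by
      refine ⟨q.out, fun k => ?_⟩
      rfl
    have h3 : ∀ k : K, μ ((cosetEquiv K) (q, k) • D' ∩ D) =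
        μ (r⁻¹ • D ∩ k • D') := by
      intro k
      rw [hr k, ← measure_smul μ r⁻¹, smul_set_inter, mul_smul, inv_smul_smul, inter_comm]
      rfl
    simp_rw [h3]
    rw [← hD'.measure_eq_tsum' (r⁻¹ • D), measure_smul]
  simp_rw [h2]
  rw [tsum_fintype, Finset.sum_const, Finset.card_univ, nsmul_eq_mul, ← Nat.card_eq_fintype_card]
  rfl

end

section
variable {G α : Type*} [Group G] [MulAction G α] [MeasurableSpace α] {μ : Measure α}

theorem fd_subgroupOf {Γ' Γ : Subgroup G} (hle : Γ' ≤ Γ) {D : Set α}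
    (h : IsFundamentalDomain Γ' D μ) : IsFundamentalDomain (Γ'.subgroupOf Γ) D μ where
  nullMeasurableSet := h.nullMeasurableSet
  ae_covers := by
    filter_upwards [h.ae_covers] with x hx
    obtain ⟨g, hg⟩ := hx
    exact ⟨⟨⟨g.1, hle g.2⟩, by rw [Subgroup.mem_subgroupOf]; exact g.2⟩, hg⟩
  aedisjoint := by
    intro a b hab
    have h1 := h.aedisjoint (i := (⟨a.1.1, a.2⟩ : Γ')) (j := (⟨b.1.1, b.2⟩ : Γ')) (by
      intro he
      apply hab
      have := congrArg (fun z : Γ' => z.1) he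
      exact Subtype.ext (Subtype.ext this))
    exact h1

/-- index formula for nested subgroups -/
theorem index_formula' [Countable G] [MeasurableConstSMul G α] [SMulInvariantMeasure G α μ]
    {Γ' Γ : Subgroup G} (hle : Γ' ≤ Γ) (hfin : Γ'.relIndex Γ ≠ 0) {D D' : Set α}
    (hD : IsFundamentalDomain Γ D μ) (hD' : IsFundamentalDomain Γ' D' μ) :
    μ D' = (Γ'.relIndex Γ : ℝ≥0∞) * μ D := by
  have : Finite (Γ ⧸ (Γ'.subgroupOf Γ)) := by
    apply Nat.finite_of_card_ne_zero
    exact hfin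
  have : MeasurableConstSMul Γ α := ⟨fun c => measurable_const_smul (c : G)⟩
  have : SMulInvariantMeasure Γ α μ := ⟨fun c s hs => measure_preimage_smul_of_nullMeasurableSet
    (G := G) hs.nullMeasurableSet (c : G)⟩
  exact index_formula (Γ'.subgroupOf Γ) hD (fd_subgroupOf hle hD')

end

end Pool.Agent.W438.Hyp
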