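import Pool.Agent.W438.Hyp.Inv
import Pool.Agent.W438.Hyp.Index
import Pool.Agent.W575.Hyp6.Torsion

set_option autoImplicit false

open MeasureTheory ProbabilityTheory Set Filter Topology

namespace Pool.Agent.W438.Hyp

open Pool.Agent.W438.Vol hiding cst
open Pool.Agent.W575.Hyp6
open scoped Matrix Pointwise

instance : Countable (Matrix (Fin 7) (Fin 7) ℤ) :=
  inferInstanceAs (Countable (Fin 7 → Fin 7 → ℤ))

instance : Countable GL7 := (Units.val_injective).countable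

instance : Countable G := Subtype.val_injective.countable

/-- sublevel sets are finite -/
theorem sublevel_finite (x : Fin 7 → ℝ) (hx : B x x = -1) (hx0 : 0 < x 0) (c : ℝ) :
    {y : Fin 7 → ℤ | X y ∧ c ≤ B (cst y) x}.Finite := by
  obtain ⟨K, hK⟩ := exists_int_gt (2 * x 0 * (-c))
  apply (Set.finite_Icc (fun _ => -K : Fin 7 → ℤ) (fun _ => K)).subset
  rintro y ⟨hy, hyx⟩
  set E : Fin 7 → ℝ := Pi.single 0 1 with hE
  have hBE : ∀ z : Fin 7 → ℝ, B E z = - z 0 := by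
    intro z; simp [B, hE]
  have hEE : E 0 = 1 := by simp [hE]
  set u : Fin 7 → ℝ := (2 * x 0) • x - E with hu
  have hx1 : 1 ≤ x 0 ^ 2 := by
    have : B x x = (x 1 ^ 2 + x 2 ^ 2 + x 3 ^ 2 + x 4 ^ 2 + x 5 ^ 2 + x 6 ^ 2) - x 0 ^ 2 := by
      simp only [B]; ring
    nlinarith [sq_nonneg (x 1), sq_nonneg (x 2), sq_nonneg (x 3), sq_nonneg (x 4),
      sq_nonneg (x 5), sq_nonneg (x 6)]
  have hu0 : 0 < u 0 := by
    simp only [hu, Pi.sub_apply, Pi.smul_apply, smul_eq_mul, hEE]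
    nlinarith
  have huu : B u u < 0 := by
    rw [hu, B_sub_left, B_sub_right, B_sub_right, B_smul_left, B_smul_left, B_smul_right,
      B_comm x E, hBE, hBE, hBE, hx, hEE, Pi.smul_apply, smul_eq_mul]
    nlinarith
  have hylt : B u (cst y) < 0 := by
    apply B_neg_of_future _ _ hu0 huu
    · change (0 : ℝ) < (y 0 : ℝ)
      exact_mod_cast hy.pos
    · rw [B_cst, hy.norm]; norm_num
  have h1 : (y 0 : ℝ) < K := by
    rw [hu, B_sub_left, B_smul_left, hBE, B_comm x] at hylt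
    have : cst y 0 = (y 0 : ℝ) := rfl
    rw [this] at hylt
    have h2 : 2 * x 0 * c ≤ 2 * x 0 * B (cst y) x := by
      apply mul_le_mul_of_nonneg_left hyx (by linarith)
    linarith
  have h2 : y 0 < K := by exact_mod_cast h1
  have h3 : ∀ i, y i ^ 2 ≤ y 0 ^ 2 := by
    intro i
    have hn := hy.norm
    simp only [B] at hn
    fin_cases i <;> simp <;> nlinarith [sq_nonneg (y 1), sq_nonneg (y 2), sq_nonneg (y 3),
      sq_nonneg (y 4), sq_nonneg (y 5), sq_nonneg (y 6)]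
  have h4 : ∀ i, |y i| ≤ y 0 := by
    intro i
    exact abs_le_of_sq_le_sq (h3 i) hy.pos.le
  rw [Set.mem_Icc]
  constructor
  · intro i
    have := abs_le.1 (h4 i)
    simp only
    linarith
  · intro i
    have := abs_le.1 (h4 i)
    simp only
    linarith

/-- the Dirichlet domain with centre `p` -/
def Dir (Γ : Subgroup G) : Set H6 := {x | ∀ γ ∈ Γ, B (cst (act γ p)) x.1 ≤ B (cst p) x.1}

theorem measurable_B (v : Fin 7 → ℝ) : Measurable (fun x : H6 => B v x.1) := by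
  have h1 : Measurable (fun x : Fin 7 → ℝ => B v x) := by
    unfold B
    fun_prop
  exact h1.comp measurable_subtype_coe

theorem measurableSet_Dir (Γ : Subgroup G) : MeasurableSet (Dir Γ) := by
  have : Dir Γ = ⋂ γ : Γ, {x : H6 | B (cst (act γ.1 p)) x.1 ≤ B (cst p) x.1} := by
    ext x
    simp only [Dir, Set.mem_ofPred_eq, Set.mem_iInter, Subtype.forall]
  rw [this]
  exact MeasurableSet.iInter fun γ => measurableSet_le (measurable_B _) (measurable_B _)

theorem Dir_covers (Γ : Subgroup G) (x : H6) : ∃ g : Γ, g • x ∈ Dir Γ := by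
  have hfin : {y : Fin 7 → ℤ | (∃ γ ∈ Γ, act γ p = y) ∧ B (cst p) x.1 ≤ B (cst y) x.1}.Finite := by
    apply (sublevel_finite x.1 x.2.1 x.2.2 (B (cst p) x.1)).subset
    rintro y ⟨⟨γ, _, rfl⟩, h⟩
    exact ⟨X_p.act γ, h⟩
  have hne : {y : Fin 7 → ℤ | (∃ γ ∈ Γ, act γ p = y) ∧ B (cst p) x.1 ≤ B (cst y) x.1}.Nonempty :=
    ⟨p, ⟨1, Γ.one_mem, act_one p⟩, le_refl _⟩
  obtain ⟨y, ⟨⟨γ, hγ, rfl⟩, hy⟩, hmax⟩ := Set.exists_max_image _ (fun y => B (cst y) x.1) hfin hne
  have hmax' : ∀ γ' ∈ Γ, B (cst (act γ' p)) x.1 ≤ B (cst (act γ p)) x.1 := by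
    intro γ' hγ'
    by_cases h : B (cst p) x.1 ≤ B (cst (act γ' p)) x.1
    · exact hmax _ ⟨⟨γ', hγ', rfl⟩, h⟩
    · push Not at h
      linarith
  refine ⟨⟨γ⁻¹, Γ.inv_mem hγ⟩, ?_⟩
  intro δ hδ
  have e1 : ∀ w : G, B (cst (act w p)) (γ⁻¹ • x).1 = B (cst (act (γ * w) p)) x.1 := by
    intro w
    rw [smul_val, ← B_actR γ, ← actR_mul, mul_inv_cancel, actR_one, ← cst_act, ← act_mul]
  have h2 := e1 δ
  have h3 := e1 1
  rw [act_one, mul_one] at h3
  change B (cst (act δ p)) (γ⁻¹ • x).1 ≤ B (cst p) (γ⁻¹ • x).1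
  rw [h2, h3]
  exact hmax' _ (Γ.mul_mem hγ hδ)

theorem mem_smul_Dir (Γ : Subgroup G) (g : Γ) (x : H6) (hx : x ∈ g • Dir Γ) :
    ∀ γ ∈ Γ, B (cst (act γ p)) x.1 ≤ B (cst (act g.1 p)) x.1 := by
  rw [Set.mem_smul_set] at hx
  obtain ⟨y, hy, rfl⟩ := hx
  intro γ hγ
  have h := hy (g.1⁻¹ * γ) (Γ.mul_mem (Γ.inv_mem g.2) hγ)
  have e1 : ∀ w : G, B (cst (act w p)) (g • y).1 = B (cst (act (g.1⁻¹ * w) p)) y.1 := by
    intro w
    change B (cst (act w p)) (g.1 • y).1 = _
    rw [smul_val, ← B_actR g.1⁻¹, ← actR_mul, inv_mul_cancel, actR_one, ← cst_act, ← act_mul]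
  rw [e1, e1, inv_mul_cancel, act_one]
  exact h

theorem cst_inj {x y : Fin 7 → ℤ} (h : cst x = cst y) : x = y := by
  funext i
  have := congrFun h i
  simp only [cst] at this
  exact_mod_cast this

/-- **Dirichlet domains are fundamental domains** -/
theorem Dir_fd (Γ : Subgroup G) (hst : ∀ γ ∈ Γ, act γ p = p → γ = 1) :
    IsFundamentalDomain Γ (Dir Γ) hypVol where
  nullMeasurableSet := (measurableSet_Dir Γ).nullMeasurableSet
  ae_covers := Eventually.of_forall (Dir_covers Γ)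
  aedisjoint := by
    intro a b hab
    change hypVol (a • Dir Γ ∩ b • Dir Γ) = 0
    have hne : cst (act a.1 p) - cst (act b.1 p) ≠ 0 := by
      intro h
      have h1 : act a.1 p = act b.1 p := cst_inj (sub_eq_zero.1 h)
      have h2 : a.1⁻¹ * b.1 = 1 := by
        apply hst _ (Γ.mul_mem (Γ.inv_mem a.2) b.2)
        rw [act_mul, ← h1, act_inv_act]
      exact hab (Subtype.ext (inv_mul_eq_one.1 h2))
    refine measure_mono_null ?_ (wall_null _ hne)
    rintro x ⟨hxa, hxb⟩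
    have h1 := mem_smul_Dir Γ a x hxa b.1 b.2
    have h2 := mem_smul_Dir Γ b x hxb a.1 a.2
    simp only [Set.mem_ofPred_eq]
    rw [B_sub_right, B_comm x.1, B_comm x.1]
    linarith

/-- the right-angled polytope `P⁶` in the hyperboloid model -/
def PH : Set H6 := {x | ∀ f, B x.1 (cst (N f)) ≤ 0}

theorem base_closestR (z : Fin 7 → ℝ) (hz : ∀ f, B z (cst (N f)) ≤ 0) :
    ∀ (n : ℕ) (x : Fin 7 → ℤ), (-B x p).toNat = n → X x → B z (cst x) ≤ B z (cst p) := by
  intro n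
  induction n using Nat.strong_induction_on with
  | _ n ih =>
    intro x hn hx
    by_cases hd : ∀ f, B x (N f) ≤ 0
    · rw [hx.eq_p hd]
    · push Not at hd
      obtain ⟨f, hf⟩ := hd
      have h1 := ih (-B (act (s f) x) p).toNat (by
        rw [B_s_p]
        have := hx.B_p_neg
        omega) (act (s f) x) rfl (hx.s f)
      have e1 : cst (act (s f) x) = cst x - (2 * ((B x (N f) : ℤ) : ℝ)) • cst (N f) := by
        rw [act_s]
        funext i
        simp [cst]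
      rw [e1, B_sub_right, B_smul_right] at h1
      have h2 := hz f
      have h3 : (0 : ℝ) < (B x (N f) : ℤ) := by exact_mod_cast hf
      have h4 : 2 * ((B x (N f) : ℤ) : ℝ) * B z (cst (N f)) ≤ 0 := by
        apply mul_nonpos_of_nonneg_of_nonpos (by linarith) h2
      linarith

theorem Dir_Gam2 : Dir Gam2 = PH := by
  ext x
  constructor
  · intro h f
    have h1 := h (s f) (s_mem f)
    have e1 : cst (act (s f) p) = cst p + (2 : ℝ) • cst (N f) := by
      rw [act_s]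
      have : B p (N f) = -1 := by rw [B_comm]; exact B_N_p f
      rw [this]
      funext i
      simp [cst]
    rw [e1, B_add_left, B_smul_left, B_comm (cst (N f))] at h1
    linarith
  · intro h γ _
    have := base_closestR x.1 h _ (act γ p) rfl (X_p.act γ)
    rw [B_comm, B_comm (cst p)]
    exact this

theorem PH_preimage : pt ⁻¹' PH = P6 := by
  ext y
  simp only [PH, mem_preimage, Set.mem_ofPred_eq]
  rw [P6_iff]
  rw [← pt_val, CP_iff]
  constructor
  · intro h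
    have h0 := h 0
    have h1 := h 1
    have h2 := h 2
    have h3 := h 3
    have h4 := h 4
    have h5 := h 5
    have h6 := h 6
    have h7 := h 7
    have h8 := h 8
    have h9 := h 9
    have h10 := h 10
    have h11 := h 11
    have h12 := h 12
    have h13 := h 13
    have h14 := h 14
    have h15 := h 15
    have h16 := h 16
    have h17 := h 17
    have h18 := h 18
    have h19 := h 19
    have h20 := h 20
    have h21 := h 21
    have h22 := h 22
    have h23 := h 23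
    have h24 := h 24
    have h25 := h 25
    have h26 := h 26
    simp [B, N, cst] at h0 h1 h2 h3 h4 h5 h6 h7 h8 h9 h10 h11 h12 h13 h14 h15 h16 h17 h18 h19 h20 h21 h22 h23 h24 h25 h26
    refine ⟨⟨?_, ?_, ?_, ?_, ?_, ?_⟩, ⟨?_, ?_, ?_, ?_, ?_, ?_, ?_, ?_, ?_, ?_, ?_, ?_, ?_, ?_, ?_⟩,
      ⟨?_, ?_, ?_, ?_, ?_, ?_⟩⟩ <;> linarith
  · rintro ⟨⟨a1, a2, a3, a4, a5, a6⟩, ⟨b12, b13, b14, b15, b16, b23, b24, b25, b26, b34, b35, b36,
      b45, b46, b56⟩, ⟨c1, c2, c3, c4, c5, c6⟩⟩ f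
    fin_cases f <;> simp [B, N, cst] <;> linarith

theorem hypVol_PH : hypVol PH = ENNReal.ofReal (Real.pi ^ 3 / 15) := by
  have hm : MeasurableSet PH := by rw [← Dir_Gam2]; exact measurableSet_Dir _
  rw [hypVol_apply hm, PH_preimage, vol_P6]

/-- **the covolume of a subgroup of finite index** -/
theorem covolume (Γ : Subgroup G) (hst : ∀ γ ∈ Γ, act γ p = p → γ = 1) (hfin : Γ.index ≠ 0) :
    hypVol (Dir Γ) = ENNReal.ofReal (Γ.index * (Real.pi ^ 3 / (15 * 51840))) := by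
  set Γ' : Subgroup G := Γ ⊓ Gam2 with hΓ'
  have hst2 : ∀ γ ∈ Gam2, act γ p = p → γ = 1 := fun γ hγ h => Stab_Gam2 h hγ
  have hst' : ∀ γ ∈ Γ', act γ p = p → γ = 1 := fun γ hγ h => hst γ hγ.1 h
  have hle1 : Γ' ≤ Γ := inf_le_left
  have hle2 : Γ' ≤ Gam2 := inf_le_right
  have h1 := Subgroup.relIndex_mul_index hle1
  have h2 := Subgroup.relIndex_mul_index hle2
  have hne : Γ'.index ≠ 0 := by
    rw [hΓ']
    apply Subgroup.index_inf_ne_zero hfin
    rw [index_Gam2]; norm_num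
  have hr1 : Γ'.relIndex Γ ≠ 0 := by
    intro h; rw [h, zero_mul] at h1; exact hne h1.symm
  have hr2 : Γ'.relIndex Gam2 ≠ 0 := by
    intro h; rw [h, zero_mul] at h2; exact hne h2.symm
  have f1 := index_formula' hle1 hr1 (Dir_fd Γ hst) (Dir_fd Γ' hst')
  have f2 := index_formula' hle2 hr2 (Dir_fd Gam2 hst2) (Dir_fd Γ' hst')
  rw [Dir_Gam2, hypVol_PH] at f2
  rw [f2] at f1
  rw [index_Gam2] at h2
  have h3 : ((Γ'.relIndex Γ : ℕ) : ℝ) * Γ.index = (Γ'.relIndex Gam2 : ℕ) * 51840 := by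
    have : Γ'.relIndex Γ * Γ.index = Γ'.relIndex Gam2 * 51840 := by rw [h1, h2]
    exact_mod_cast this
  have e1 : ((Γ'.relIndex Gam2 : ℕ) : ENNReal) * ENNReal.ofReal (Real.pi ^ 3 / 15) =
      ((Γ'.relIndex Γ : ℕ) : ENNReal) * ENNReal.ofReal (Γ.index * (Real.pi ^ 3 / (15 * 51840))) := by
    rw [← ENNReal.ofReal_natCast, ← ENNReal.ofReal_natCast, ← ENNReal.ofReal_mul (by positivity),
      ← ENNReal.ofReal_mul (by positivity)]
    congr 1
    rw [← mul_assoc, h3]
    ring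
  rw [e1] at f1
  have hn0 : ((Γ'.relIndex Γ : ℕ) : ENNReal) ≠ 0 := by exact_mod_cast hr1
  exact ((ENNReal.mul_right_inj hn0 (ENNReal.natCast_ne_top _)).1 f1).symm

/-- freeness gives a trivial stabilizer of the base point -/
theorem stab_trivial (Γ : Subgroup G)
    (hfree : ∀ γ ∈ Γ, ∀ x : Fin 7 → ℝ, B x x = -1 → 0 < x 0 → actR γ x = x → γ = 1) :
    ∀ γ ∈ Γ, act γ p = p → γ = 1 := by
  intro γ hγ h
  have hs : 0 < Real.sqrt 3 := by positivity
  have h3 : Real.sqrt 3 * Real.sqrt 3 = 3 := Real.mul_self_sqrt (by norm_num)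
  apply hfree γ hγ ((Real.sqrt 3)⁻¹ • cst p)
  · rw [B_smul_left, B_smul_right, B_cst, B_p_p]
    field_simp
    push_cast
    nlinarith
  · simp only [Pi.smul_apply, smul_eq_mul, cst, p]
    simp
  · rw [Pool.Agent.W575.Hyp6.actR_smul, ← cst_act, h]

/-- **Covolume of a torsion-free subgroup of finite index.** -/
theorem exists_fd (Γ : Subgroup PosLor) (hfin : Γ.index ≠ 0)
    (hfree : ∀ γ ∈ Γ, ∀ x : H6, γ • x = x → γ = 1) :
    ∃ D : Set H6, IsFundamentalDomain Γ D hypVol ∧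
      hypVol D = ENNReal.ofReal (Γ.index * (Real.pi ^ 3 / 777600)) := by
  have hst := stab_trivial Γ (by
    intro γ hγ x hx hx0 h
    exact hfree γ hγ ⟨x, hx, hx0⟩ (Subtype.ext h))
  refine ⟨Dir Γ, Dir_fd Γ hst, ?_⟩
  rw [covolume Γ hst hfin]
  norm_num

end Pool.Agent.W438.Hyp
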