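import Pool.Agent.W438.Hyp.PolarG
import Pool.Agent.W438.Vol.Final
import Pool.Agent.W575.Hyp6.VolDefs

set_option autoImplicit false

open MeasureTheory ProbabilityTheory Set Filter Topology

namespace Pool.Agent.W438.Hyp

open Pool.Agent.W438.Vol Pool.Agent.W575.Hyp6
open scoped Matrix

lemma rr_B (x : Fin 7 → ℝ) : rr x = -(B x x) / 2 := by
  unfold rr
  rw [sy_eq]
  simp only [B]
  ring

lemma LC_iff (x : Fin 7 → ℝ) : x ∈ LC ↔ 0 < x 0 ∧ B x x < 0 := by
  simp only [LC, Set.mem_ofPred_eq, sy_eq, B]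
  constructor
  · rintro ⟨h1, h2⟩; exact ⟨h1, by nlinarith⟩
  · rintro ⟨h1, h2⟩; exact ⟨h1, by nlinarith⟩

lemma pt_val (y : Fin 6 → ℝ) : (pt y).1 = (Fin.cons (Real.sqrt (1 + ∑ k, y k ^ 2)) y : Fin 7 → ℝ) := by
  funext i
  fin_cases i <;> rfl

lemma measurable_pt : Measurable pt := by
  apply Measurable.subtype_mk
  have : (fun y : Fin 6 → ℝ => (![Real.sqrt (1 + ∑ i, y i ^ 2), y 0, y 1, y 2, y 3, y 4, y 5] :
      Fin 7 → ℝ)) = fun y => (Fin.cons (Real.sqrt (1 + ∑ k, y k ^ 2)) y : Fin 7 → ℝ) := by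
    funext y
    exact pt_val y
  rw [this]
  apply measurable_cons' <;> fun_prop

lemma measurable_val6 : Measurable (fun x : H6 => x.1) := measurable_subtype_coe

/-- a point of `H6` is determined by its last six coordinates -/
lemma H6_ext6 (x y : H6) (h : ∀ k : Fin 6, x.1 k.succ = y.1 k.succ) : x = y := by
  apply Subtype.ext
  have hx := x.2
  have hy := y.2
  have e1 := h 0
  have e2 := h 1
  have e3 := h 2
  have e4 := h 3
  have e5 := h 4
  have e6 := h 5
  simp only [show (Fin.succ 0 : Fin 7) = 1 from rfl, show (Fin.succ 1 : Fin 7) = 2 from rfl,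
    show (Fin.succ 2 : Fin 7) = 3 from rfl, show (Fin.succ 3 : Fin 7) = 4 from rfl,
    show (Fin.succ 4 : Fin 7) = 5 from rfl, show (Fin.succ 5 : Fin 7) = 6 from rfl] at e1 e2 e3 e4 e5 e6
  have h0 : x.1 0 = y.1 0 := by
    have a := hx.1
    have b := hy.1
    simp only [B] at a b
    rw [e1, e2, e3, e4, e5, e6] at a
    have h2 : x.1 0 ^ 2 = y.1 0 ^ 2 := by nlinarith
    exact (pow_left_inj₀ hx.2.le hy.2.le two_ne_zero).1 h2
  funext i
  refine Fin.cases h0 (fun k => h k) i

/-- radial projection to hyperbolic space -/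
noncomputable def nrm (x : Fin 7 → ℝ) : H6 := pt (fun k => x k.succ / Real.sqrt (2 * rr x))

lemma measurable_nrm : Measurable nrm := by
  apply measurable_pt.comp
  have := measurable_rr
  refine measurable_pi_lambda _ fun k => ?_
  fun_prop

lemma nrm_val (x : Fin 7 → ℝ) (hx : x ∈ LC) : (nrm x).1 = (1 / Real.sqrt (2 * rr x)) • x := by
  have hx' := (LC_iff x).1 hx
  have hr : 0 < 2 * rr x := by rw [rr_B]; linarith [hx'.2]
  have hs : 0 < Real.sqrt (2 * rr x) := Real.sqrt_pos.2 hr
  have hs2 : Real.sqrt (2 * rr x) ^ 2 = 2 * rr x := Real.sq_sqrt hr.le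
  set r := Real.sqrt (2 * rr x) with hrdef
  have hq : B ((1 / r) • x) ((1 / r) • x) = -1 := by
    rw [B_smul_left, B_smul_right]
    have : B x x = - (2 * rr x) := by rw [rr_B]; ring
    rw [this, ← hs2]
    field_simp
  have h0 : 0 < ((1 / r) • x) 0 := by
    simp only [Pi.smul_apply, smul_eq_mul]
    have := hx'.1
    positivity
  have key : nrm x = ⟨(1 / r) • x, hq, h0⟩ := by
    apply H6_ext6
    intro k
    unfold nrm
    rw [pt_val]
    simp only [Fin.cons_succ, Pi.smul_apply, smul_eq_mul]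
    rw [← hrdef]
    ring
  rw [key]

/-- the cone over a set -/
def cone (S : Set H6) : Set (Fin 7 → ℝ) := LC ∩ nrm ⁻¹' S

lemma measurableSet_cone {S : Set H6} (hS : MeasurableSet S) : MeasurableSet (cone S) :=
  measurableSet_LC.inter (measurable_nrm hS)

lemma LC_smul (c : ℝ) (hc : 0 < c) (x : Fin 7 → ℝ) : c • x ∈ LC ↔ x ∈ LC := by
  rw [LC_iff, LC_iff, B_smul_left, B_smul_right]
  simp only [Pi.smul_apply, smul_eq_mul]
  constructor
  · rintro ⟨h1, h2⟩
    refine ⟨pos_of_mul_pos_right h1 hc.le, ?_⟩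
    by_contra h
    push Not at h
    have : 0 ≤ c * (c * B x x) := by positivity
    linarith
  · rintro ⟨h1, h2⟩
    refine ⟨by positivity, ?_⟩
    have : 0 < c * (c * (- B x x)) := by
      have : 0 < - B x x := by linarith
      positivity
    linarith

lemma H6_mem_LC (x : H6) : x.1 ∈ LC := by
  rw [LC_iff]
  exact ⟨x.2.2, by rw [x.2.1]; norm_num⟩

lemma nrm_of (x : Fin 7 → ℝ) (hx : x ∈ LC) (z : H6) (c : ℝ) (hc : 0 < c) (h : x = c • z.1) : nrm x = z := by
  apply Subtype.ext
  rw [nrm_val x hx]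
  have h1 : rr x = c ^ 2 / 2 := by
    rw [rr_B, h, B_smul_left, B_smul_right, z.2.1]
    ring
  rw [h1, show 2 * (c ^ 2 / 2) = c ^ 2 by ring, Real.sqrt_sq hc.le, h, smul_smul,
    one_div_mul_cancel hc.ne', one_smul]

lemma nrm_smul (c : ℝ) (hc : 0 < c) (x : Fin 7 → ℝ) (hx : x ∈ LC) : nrm (c • x) = nrm x := by
  have hx' := (LC_iff x).1 hx
  have hr : 0 < 2 * rr x := by rw [rr_B]; linarith [hx'.2]
  have hs : 0 < Real.sqrt (2 * rr x) := Real.sqrt_pos.2 hr
  apply nrm_of _ ((LC_smul c hc x).2 hx) _ (c * Real.sqrt (2 * rr x)) (by positivity)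
  rw [nrm_val x hx, smul_smul]
  congr 1
  field_simp

lemma cone_smul (S : Set H6) (c : ℝ) (hc : 0 < c) (x : Fin 7 → ℝ) : c • x ∈ cone S ↔ x ∈ cone S := by
  unfold cone
  constructor
  · rintro ⟨h1, h2⟩
    have hx := (LC_smul c hc x).1 h1
    refine ⟨hx, ?_⟩
    rw [mem_preimage, nrm_smul c hc x hx] at h2
    exact h2
  · rintro ⟨h1, h2⟩
    refine ⟨(LC_smul c hc x).2 h1, ?_⟩
    rw [mem_preimage, nrm_smul c hc x h1]
    exact h2

lemma nrm_H6 (x : H6) : nrm x.1 = x :=
  nrm_of x.1 (H6_mem_LC x) x 1 one_pos (by rw [one_smul])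

lemma sec_cone (S : Set H6) : sec (cone S) = pt ⁻¹' S := by
  ext w
  simp only [sec, Set.mem_ofPred_eq, mem_preimage]
  rw [← pt_val]
  unfold cone
  constructor
  · rintro ⟨_, h⟩
    rw [mem_preimage, nrm_H6] at h
    exact h
  · intro h
    refine ⟨H6_mem_LC _, ?_⟩
    rw [mem_preimage, nrm_H6]
    exact h

lemma hypVol_apply {S : Set H6} (hS : MeasurableSet S) : hypVol S = hypMeas (pt ⁻¹' S) := by
  unfold hypVol
  rw [Measure.map_apply measurable_pt hS]
  rfl

/-- **polar coordinates** -/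
lemma muM_cone {S : Set H6} (hS : MeasurableSet S) :
    muM (cone S) = ENNReal.ofReal (15 * Real.sqrt Real.pi / Real.sqrt 2) * hypVol S := by
  rw [muM_polarG (measurableSet_cone hS) (fun c hc x => cone_smul S c hc x), m6_val, sec_cone,
    hypVol_apply hS]

lemma c_ne_zero : ENNReal.ofReal (15 * Real.sqrt Real.pi / Real.sqrt 2) ≠ 0 := by
  have hpos : 0 < 15 * Real.sqrt Real.pi / Real.sqrt 2 := by positivity
  simpa using hpos

/-- the action as a linear map -/
noncomputable def actL (w : G) : (Fin 7 → ℝ) →ₗ[ℝ] (Fin 7 → ℝ) :=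
  Matrix.mulVecLin (w.1.1.map (Int.cast : ℤ → ℝ))

lemma actL_apply (w : G) (x : Fin 7 → ℝ) : actL w x = actR w x := rfl

lemma det_actL (w : G) : |LinearMap.det (actL w)| = 1 := by
  have h : (w.1.1.map (Int.cast : ℤ → ℝ))ᵀ * J ℝ * (w.1.1.map (Int.cast : ℤ → ℝ)) = J ℝ := by
    have h := congrArg (fun M : Matrix (Fin 7) (Fin 7) ℤ => M.map (Int.cast : ℤ → ℝ)) w.2.1
    simp only [map_mul'', J_map'] at h
    exact h
  have h2 := congrArg Matrix.det h
  rw [Matrix.det_mul, Matrix.det_mul, Matrix.det_transpose] at h2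
  have hJ : (J ℝ).det = -1 := by
    simp [W575.Hyp6.J, Matrix.det_diagonal, Fin.prod_univ_succ]
  rw [hJ] at h2
  have h3 : LinearMap.det (actL w) = (w.1.1.map (Int.cast : ℤ → ℝ)).det := by
    unfold actL
    rw [← Matrix.toLin'_apply', LinearMap.det_toLin']
  rw [h3]
  set d := (w.1.1.map (Int.cast : ℤ → ℝ)).det with hd
  have h4 : d * d = 1 := by linarith
  have h5 : |d| * |d| = 1 := by rw [← abs_mul, h4, abs_one]
  nlinarith [abs_nonneg d]

lemma measurable_actR (w : G) : Measurable (actR w) := by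
  have : (actR w) = actL w := rfl
  rw [this]
  exact (LinearMap.continuous_of_finiteDimensional _).measurable

lemma actR_vol (w : G) : MeasurePreserving (actR w) (volume : Measure (Fin 7 → ℝ)) volume := by
  refine ⟨measurable_actR w, ?_⟩
  have hd : LinearMap.det (actL w) ≠ 0 := by
    intro h
    have := det_actL w
    rw [h] at this
    simp at this
  have h := Real.map_linearMap_volume_pi_eq_smul_volume_pi hd
  rw [abs_inv, det_actL, inv_one, ENNReal.ofReal_one, one_smul] at h
  exact h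

lemma actR_LC_sub (w : G) (x : Fin 7 → ℝ) (hx : x ∈ LC) : actR w x ∈ LC := by
  rw [LC_iff] at hx ⊢
  exact ⟨actR_future w x hx.2 hx.1, by rw [B_actR']; exact hx.2⟩

lemma actR_LC (w : G) : actR w ⁻¹' LC = LC := by
  ext x
  constructor
  · intro h
    have := actR_LC_sub w⁻¹ _ h
    rwa [← actR_mul', inv_mul_cancel, actR_one'] at this
  · intro h; exact actR_LC_sub w x h

lemma actR_mp (w : G) : MeasurePreserving (actR w) muM muM :=
  mp_of (actR_vol w) (actR_LC w) (fun x => by rw [rr_B, rr_B, B_actR'])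

lemma actR_smul (w : G) (c : ℝ) (x : Fin 7 → ℝ) : actR w (c • x) = c • actR w x := by
  rw [← actL_apply, map_smul, actL_apply]

lemma nrm_actR (w : G) (x : Fin 7 → ℝ) (hx : x ∈ LC) : nrm (actR w x) = w • nrm x := by
  have hx' := (LC_iff x).1 hx
  have hr : 0 < 2 * rr x := by rw [rr_B]; linarith [hx'.2]
  have hs : 0 < Real.sqrt (2 * rr x) := Real.sqrt_pos.2 hr
  apply nrm_of _ (actR_LC_sub w x hx) _ (Real.sqrt (2 * rr x)) hs
  rw [smul_val, nrm_val x hx, actR_smul, smul_smul, mul_one_div_cancel hs.ne', one_smul]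

lemma measurable_smulH (w : G) : Measurable (fun x : H6 => w • x) := by
  apply Measurable.subtype_mk
  exact (measurable_actR w).comp measurable_subtype_coe

instance : MeasurableConstSMul PosLor H6 := ⟨measurable_smulH⟩

/-- **hyperbolic volume is invariant** -/
instance : SMulInvariantMeasure PosLor H6 hypVol where
  measure_preimage_smul := by
    intro w S hS
    have hS' : MeasurableSet ((fun x : H6 => w • x) ⁻¹' S) := measurable_smulH w hS
    have h1 := muM_cone hS
    have h2 := muM_cone hS'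
    have h3 : actR w ⁻¹' (cone S) = cone ((fun x : H6 => w • x) ⁻¹' S) := by
      unfold cone
      ext x
      constructor
      · rintro ⟨a, b⟩
        have hx : x ∈ LC := by
          have : x ∈ actR w ⁻¹' LC := a
          rwa [actR_LC] at this
        refine ⟨hx, ?_⟩
        rw [mem_preimage, nrm_actR w x hx] at b
        exact b
      · rintro ⟨a, b⟩
        refine ⟨actR_LC_sub w x a, ?_⟩
        rw [mem_preimage, nrm_actR w x a]
        exact b
    have h4 := (actR_mp w).measure_preimage (measurableSet_cone hS).nullMeasurableSet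
    rw [h3, h1, h2] at h4
    exact (ENNReal.mul_right_inj c_ne_zero ENNReal.ofReal_ne_top).1 h4

/-- **walls are null** -/
lemma wall_null (v : Fin 7 → ℝ) (hv : v ≠ 0) : hypVol {x : H6 | B x.1 v = 0} = 0 := by
  have hm : MeasurableSet {x : H6 | B x.1 v = 0} := by
    have h : Measurable (fun x : H6 => B x.1 v) := by
      have h1 : Measurable (fun x : Fin 7 → ℝ => B x v) := by
        unfold B
        fun_prop
      exact h1.comp measurable_subtype_coe
    exact h (measurableSet_singleton (0 : ℝ))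
  have h1 := muM_cone hm
  have h2 : muM (cone {x : H6 | B x.1 v = 0}) = 0 := by
    apply muM_ac
    refine measure_mono_null ?_ (vol_null (fun i => if i = 0 then -v 0 else v i) ?_)
    · rintro x ⟨hx, hx2⟩
      simp only [mem_preimage, Set.mem_ofPred_eq] at hx2 ⊢
      rw [nrm_val x hx, B_smul_left] at hx2
      have hx' := (LC_iff x).1 hx
      have hr : 0 < 2 * rr x := by rw [rr_B]; linarith [hx'.2]
      have hs : 0 < Real.sqrt (2 * rr x) := Real.sqrt_pos.2 hr
      have h3 : B x v = 0 := by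
        rcases mul_eq_zero.1 hx2 with h | h
        · exfalso
          have : 0 < 1 / Real.sqrt (2 * rr x) := by positivity
          linarith
        · exact h
      rw [← h3]
      simp only [B, Fin.sum_univ_seven]
      simp
      ring
    · intro h
      apply hv
      funext i
      have := congrFun h i
      by_cases hi : i = 0
      · subst hi
        simpa using this
      · simpa [hi] using this
  rw [h2] at h1
  rcases mul_eq_zero.1 h1.symm with h | h
  · exact absurd h c_ne_zero
  · exact h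

end Pool.Agent.W438.Hyp
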