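import Pool.Agent.W438.Vol.Polar

set_option autoImplicit false

open MeasureTheory ProbabilityTheory Set Filter Topology

namespace Pool.Agent.W438.Vol

/-- section of a cone by the hyperboloid, in hyperboloid coordinates -/
def sec (Cn : Set (Fin 7 → ℝ)) : Set (Fin 6 → ℝ) :=
  {w | (Fin.cons (Real.sqrt (1 + ∑ k, w k ^ 2)) w : Fin 7 → ℝ) ∈ Cn}

lemma measurableSet_sec {Cn : Set (Fin 7 → ℝ)} (h : MeasurableSet Cn) : MeasurableSet (sec Cn) := by
  have : sec Cn = (fun w : Fin 6 → ℝ => (Fin.cons (Real.sqrt (1 + ∑ k, w k ^ 2)) w : Fin 7 → ℝ)) ⁻¹' Cn := by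
    ext w; rfl
  rw [this]
  apply h.preimage
  apply measurable_cons' <;> fun_prop

/-- the integrand in polar coordinates -/
noncomputable def PsiG (Cn : Set (Fin 7 → ℝ)) (ρ : ℝ) (y : Fin 6 → ℝ) : ENNReal :=
  ENNReal.ofReal (ρ / Real.sqrt (ρ ^ 2 + ∑ k, y k ^ 2)) *
    ({x : Fin 7 → ℝ | x ∈ Cn}.indicator (fun _ => ENNReal.ofReal (Real.exp (-(ρ ^ 2 / 2))))
      (Fin.cons (Real.sqrt (ρ ^ 2 + ∑ k, y k ^ 2)) y))

lemma measurable_PsiG {Cn : Set (Fin 7 → ℝ)} (hCn : MeasurableSet Cn) :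
    Measurable (Function.uncurry (PsiG Cn)) := by
  unfold PsiG Function.uncurry
  apply Measurable.mul
  · fun_prop
  · have h : (fun a : ℝ × (Fin 6 → ℝ) => ({x : Fin 7 → ℝ | x ∈ Cn}.indicator
        (fun _ => ENNReal.ofReal (Real.exp (-(a.1 ^ 2 / 2))))
        (Fin.cons (Real.sqrt (a.1 ^ 2 + ∑ k, a.2 k ^ 2)) a.2))) =
        ((fun a : ℝ × (Fin 6 → ℝ) => (Fin.cons (Real.sqrt (a.1 ^ 2 + ∑ k, a.2 k ^ 2)) a.2 :
          Fin 7 → ℝ)) ⁻¹' Cn).indicator (fun a => ENNReal.ofReal (Real.exp (-(a.1 ^ 2 / 2)))) := by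
      funext a
      rfl
    rw [h]
    apply Measurable.indicator
    · fun_prop
    · apply hCn.preimage
      apply measurable_cons' <;> fun_prop

lemma PsiG_smul {Cn : Set (Fin 7 → ℝ)} (hc : ∀ c : ℝ, 0 < c → ∀ x, c • x ∈ Cn ↔ x ∈ Cn)
    (ρ : ℝ) (hρ : 0 < ρ) (w : Fin 6 → ℝ) : PsiG Cn ρ (ρ • w) =
    ENNReal.ofReal (Real.exp (-(ρ ^ 2 / 2))) *
      (sec Cn).indicator (fun w => ENNReal.ofReal (1 / Real.sqrt (1 + ∑ k, w k ^ 2))) w := by
  unfold PsiG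
  have e1 : ρ ^ 2 + ∑ k, (ρ • w) k ^ 2 = ρ ^ 2 * (1 + ∑ k, w k ^ 2) := by
    rw [mul_add, mul_one, Finset.mul_sum]
    congr 1
    refine Finset.sum_congr rfl fun k _ => ?_
    simp only [Pi.smul_apply, smul_eq_mul]
    ring
  have hS : 0 ≤ ∑ k, w k ^ 2 := Finset.sum_nonneg fun _ _ => sq_nonneg _
  have e2 : Real.sqrt (ρ ^ 2 * (1 + ∑ k, w k ^ 2)) = ρ * Real.sqrt (1 + ∑ k, w k ^ 2) := by
    rw [Real.sqrt_mul (by positivity), Real.sqrt_sq hρ.le]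
  rw [e1, e2]
  have e3 : (Fin.cons (ρ * Real.sqrt (1 + ∑ k, w k ^ 2)) (ρ • w) : Fin 7 → ℝ) =
      ρ • (Fin.cons (Real.sqrt (1 + ∑ k, w k ^ 2)) w : Fin 7 → ℝ) := by
    funext i
    refine Fin.cases ?_ (fun k => ?_) i <;> simp
  rw [e3]
  have hpos : 0 < Real.sqrt (1 + ∑ k, w k ^ 2) := by positivity
  have e4 : ρ / (ρ * Real.sqrt (1 + ∑ k, w k ^ 2)) = 1 / Real.sqrt (1 + ∑ k, w k ^ 2) := by
    field_simp
  rw [e4]
  by_cases hw : w ∈ sec Cn
  · have h1 : ρ • (Fin.cons (Real.sqrt (1 + ∑ k, w k ^ 2)) w : Fin 7 → ℝ) ∈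
        {x : Fin 7 → ℝ | x ∈ Cn} := (hc ρ hρ _).2 hw
    rw [Set.indicator_of_mem h1, Set.indicator_of_mem hw, mul_comm]
  · have h1 : ρ • (Fin.cons (Real.sqrt (1 + ∑ k, w k ^ 2)) w : Fin 7 → ℝ) ∉
        {x : Fin 7 → ℝ | x ∈ Cn} := fun h => hw ((hc ρ hρ _).1 h)
    rw [Set.indicator_of_notMem h1, Set.indicator_of_notMem hw, mul_zero, mul_zero]

/-- **polar coordinates** -/
lemma muM_polarG {Cn : Set (Fin 7 → ℝ)} (hCn : MeasurableSet Cn)
    (hc : ∀ c : ℝ, 0 < c → ∀ x, c • x ∈ Cn ↔ x ∈ Cn) :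
    muM Cn = (∫⁻ ρ in Ioi (0 : ℝ), ENNReal.ofReal (ρ ^ 6 * Real.exp (-(ρ ^ 2 / 2)))) *
    hypMeas (sec Cn) := by
  rw [muM_apply hCn, ← lintegral_indicator (hCn.inter measurableSet_LC)]
  have hvp := (volume_preserving_piFinSuccAbove (fun _ : Fin 7 => ℝ) 0).symm
  have hGm : Measurable ((Cn ∩ LC).indicator dens) :=
    measurable_dens.indicator (hCn.inter measurableSet_LC)
  rw [← hvp.lintegral_comp hGm, Measure.volume_eq_prod]
  rw [lintegral_prod_symm (fun a : ℝ × (Fin 6 → ℝ) => (Cn ∩ LC).indicator dens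
    ((MeasurableEquiv.piFinSuccAbove (fun _ : Fin 7 => ℝ) 0).symm a))
    (hGm.comp hvp.measurable).aemeasurable]
  have e1 : ∀ y : Fin 6 → ℝ, ∫⁻ x0 : ℝ, (Cn ∩ LC).indicator dens
      ((MeasurableEquiv.piFinSuccAbove (fun _ : Fin 7 => ℝ) 0).symm (x0, y)) =
      ∫⁻ ρ in Ioi (0 : ℝ), PsiG Cn ρ y := by
    intro y
    have hcons : ∀ x0 : ℝ, (MeasurableEquiv.piFinSuccAbove (fun _ : Fin 7 => ℝ) 0).symm (x0, y) =
        (Fin.cons x0 y : Fin 7 → ℝ) := by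
      intro x0
      simp [MeasurableEquiv.piFinSuccAbove]
      rfl
    simp_rw [hcons]
    set a : ℝ := ∑ k, y k ^ 2 with ha
    have ha0 : 0 ≤ a := Finset.sum_nonneg fun _ _ => sq_nonneg _
    have hsy : ∀ x0 : ℝ, sy (Fin.cons x0 y : Fin 7 → ℝ) = a := by
      intro x0; simp [sy, ha]
    have hLC : ∀ x0 : ℝ, (Fin.cons x0 y : Fin 7 → ℝ) ∈ LC ↔ x0 ∈ Ioi (Real.sqrt a) := by
      intro x0
      simp only [LC, Set.mem_ofPred_eq, hsy, Fin.cons_zero, mem_Ioi]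
      constructor
      · rintro ⟨h1, h2⟩
        rw [← Real.sqrt_sq h1.le]
        exact Real.sqrt_lt_sqrt ha0 h2
      · intro h
        have h0 : 0 < x0 := lt_of_le_of_lt (Real.sqrt_nonneg a) h
        refine ⟨h0, ?_⟩
        rw [← Real.sqrt_lt_sqrt_iff ha0, Real.sqrt_sq h0.le]; exact h
    have e2 : ∀ x0 : ℝ, (Cn ∩ LC).indicator dens (Fin.cons x0 y : Fin 7 → ℝ) =
        (Ioi (Real.sqrt a)).indicator (fun x0 => ({x : Fin 7 → ℝ | x ∈ Cn}.indicator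
          (fun _ => ENNReal.ofReal (Real.exp (-((x0 ^ 2 - a) / 2)))) (Fin.cons x0 y))) x0 := by
      intro x0
      by_cases h1 : x0 ∈ Ioi (Real.sqrt a)
      · rw [Set.indicator_of_mem h1]
        by_cases h2 : (Fin.cons x0 y : Fin 7 → ℝ) ∈ Cn
        · rw [Set.indicator_of_mem (show (Fin.cons x0 y : Fin 7 → ℝ) ∈ Cn ∩ LC from ⟨h2, (hLC x0).2 h1⟩),
            Set.indicator_of_mem (show (Fin.cons x0 y : Fin 7 → ℝ) ∈ {x : Fin 7 → ℝ | x ∈ Cn} from h2)]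
          unfold dens rr
          rw [hsy, Fin.cons_zero]
        · rw [Set.indicator_of_notMem (fun h => h2 h.1),
            Set.indicator_of_notMem (show (Fin.cons x0 y : Fin 7 → ℝ) ∉ {x : Fin 7 → ℝ | x ∈ Cn} from h2)]
      · rw [Set.indicator_of_notMem h1, Set.indicator_of_notMem (fun h => h1 ((hLC x0).1 h.2))]
    simp_rw [e2]
    rw [lintegral_indicator measurableSet_Ioi, subst1 a ha0]
    refine setLIntegral_congr_fun measurableSet_Ioi fun ρ hρ => ?_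
    have hρ' : (0 : ℝ) < ρ := hρ
    simp only [PsiG]
    rw [← ha]
    congr 2
    funext _
    congr 3
    rw [Real.sq_sqrt (by positivity)]
    ring
  rw [lintegral_congr e1]
  rw [lintegral_lintegral_swap]
  · have e3 : ∀ ρ ∈ Ioi (0 : ℝ), ∫⁻ y, PsiG Cn ρ y =
        ENNReal.ofReal (ρ ^ 6 * Real.exp (-(ρ ^ 2 / 2))) * hypMeas (sec Cn) := by
      intro ρ hρ
      have hρ' : (0 : ℝ) < ρ := hρ
      have hm : Measurable (PsiG Cn ρ) := (measurable_PsiG hCn).comp measurable_prodMk_left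
      rw [scale6 ρ hρ' (PsiG Cn ρ) hm]
      simp_rw [PsiG_smul hc ρ hρ']
      rw [lintegral_const_mul' _ _ ENNReal.ofReal_ne_top, lintegral_indicator (measurableSet_sec hCn),
        ← mul_assoc, ← ENNReal.ofReal_mul (by positivity)]
      congr 1
      unfold hypMeas
      rw [withDensity_apply _ (measurableSet_sec hCn)]
    rw [setLIntegral_congr_fun measurableSet_Ioi e3, lintegral_mul_const'']
    apply Measurable.aemeasurable
    fun_prop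
  · have h := (measurable_PsiG hCn).comp measurable_swap
    exact h.aemeasurable

end Pool.Agent.W438.Vol
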